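import Pool.Agent.R128.AvgHeight

set_option autoImplicit false

/-!
# Deleting an element can raise the average heights by more than `n - 1` in total (MP_693840_co)

`LinExt P` is the type of linear extensions of the finite poset `P` with `n` elements
(order-preserving bijections to `n` positions), and `avgHeight P y` is the mean of the position of
`y` (positions counted from `1`) over all of them. The statement is the negated form of Q1: the
sum over `y ≠ x` of `max (h_P(y) - h_{P-x}(y)) 0` exceeds `n - 1` for some finite poset `P` and
some `x` in `P`.

The witness has `101` elements: two chains `x₁ < ⋯ < x₃₃` and `y₁ < ⋯ < y₆₇` and the element `z`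
with `x₇ < z < y₁₈`; the element `z` is deleted. The linear extensions are counted by a recursion on
the down-sets which the kernel evaluates.
-/

namespace Pool.Agent.Results.MP_693840_co.Counterexample

open Pool.Agent.R128.AvgHeight

/-- There are a finite poset `P` and an element `x` of `P` with
`∑_{y ≠ x} max (h_P(y) - h_{P - x}(y)) 0 > |P| - 1`. -/
theorem result : ∃ (P : Type) (_ : Fintype P) (_ : DecidableEq P) (_ : PartialOrder P) (x : P),
    (Fintype.card P : ℚ) - 1 <
      ∑ y : {y : P // y ≠ x}, max (avgHeight P y.1 - avgHeight {y : P // y ≠ x} y) 0 :=
  ⟨Pt, inferInstance, inferInstance, inferInstance, z, result_aux⟩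

end Pool.Agent.Results.MP_693840_co.Counterexample
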